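import Pool.Agent.Helper66.AI.Prof

set_option autoImplicit false
open Filter Topology
open scoped ENNReal

namespace Pool.Agent.Helper66.AI

variable {M : Type} [CStarAlgebra M] {S T : Type}

/-- All bounded functions from `S × T × ℕ` to `M`. -/
abbrev Big (M : Type) [CStarAlgebra M] (S T : Type) : Type :=
  lp (fun _ : S × T × ℕ => M) ∞

/-- The algebra of the counterexample. -/
def Alg (D : Data M) (FS : Filter S) (FT : Filter T) :
    NonUnitalStarSubalgebra ℂ (Big M S T) where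
  carrier := {a | Mem D FS FT (a : S × T × ℕ → M)}
  zero_mem' := Mem.zero
  add_mem' ha hb := ha.add hb
  mul_mem' {a b} ha hb := Mem.mul ha hb
    (fun x => lp.norm_apply_le_norm ENNReal.top_ne_zero a x)
    (fun x => lp.norm_apply_le_norm ENNReal.top_ne_zero b x)
  smul_mem' z _ ha := ha.smul z
  star_mem' ha := ha.star

lemma mem_Alg {D : Data M} {FS : Filter S} {FT : Filter T} {a : Big M S T} :
    a ∈ Alg D FS FT ↔ Mem D FS FT (a : S × T × ℕ → M) := Iff.rfl

/-- Uniform limits of sequences killed by a Lipschitz map. -/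
lemma lim_aux {φ : M → M} {K : ℝ} (hK : 0 < K) (hφ : ∀ a b, ‖φ a - φ b‖ ≤ K * ‖a - b‖)
    {f : ℕ → ℕ → M} {g : ℕ → M}
    (hunif : ∀ ε > 0, ∃ k, ∀ m, ‖g m - f k m‖ ≤ ε)
    (hf : ∀ k, Tendsto (fun m => φ (f k m)) atTop (𝓝 0)) :
    Tendsto (fun m => φ (g m)) atTop (𝓝 0) := by
  rw [Metric.tendsto_atTop]
  intro ε hε
  obtain ⟨k, hk⟩ := hunif (ε / (2 * K)) (by positivity)
  have h1 := hf k
  rw [Metric.tendsto_atTop] at h1
  obtain ⟨N, hN⟩ := h1 (ε / 2) (by positivity)
  refine ⟨N, fun m hm => ?_⟩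
  have h2 := hN m hm
  rw [dist_zero_right] at h2 ⊢
  have h3 : ‖φ (g m) - φ (f k m)‖ ≤ ε / 2 := by
    refine (hφ _ _).trans ?_
    refine (mul_le_mul_of_nonneg_left (hk m) hK.le).trans (le_of_eq ?_)
    field_simp
  calc ‖φ (g m)‖ = ‖(φ (g m) - φ (f k m)) + φ (f k m)‖ := by rw [sub_add_cancel]
    _ ≤ ‖φ (g m) - φ (f k m)‖ + ‖φ (f k m)‖ := norm_add_le _ _
    _ < ε / 2 + ε / 2 := add_lt_add_of_le_of_lt h3 h2
    _ = ε := by ring

lemma isClosed_Alg (D : Data M) (FS : Filter S) (FT : Filter T)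
    [CountableInterFilter FS] [NeBot FS] [CountableInterFilter FT] [NeBot FT] :
    IsClosed ((Alg D FS FT : NonUnitalStarSubalgebra ℂ (Big M S T)) : Set (Big M S T)) := by
  apply IsSeqClosed.isClosed
  intro f g hf hg
  have hpt : ∀ x, Tendsto (fun k => f k x) atTop (𝓝 (g x)) := fun x =>
    ((lp.lipschitzWith_one_eval ∞ x).continuous.tendsto g).comp hg
  have hunif : ∀ ε > 0, ∃ k, ∀ x, ‖g x - f k x‖ ≤ ε := by
    intro ε hε
    rw [Metric.tendsto_atTop] at hg
    obtain ⟨k, hk⟩ := hg ε hε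
    refine ⟨k, fun x => ?_⟩
    have h1 := hk k le_rfl
    rw [dist_eq_norm, norm_sub_rev] at h1
    have h2 := lp.norm_apply_le_norm ENNReal.top_ne_zero (g - f k) x
    exact h2.trans h1.le
  have hf' : ∀ k, Mem D FS FT (f k : S × T × ℕ → M) := hf
  have hK : (0 : ℝ) < 1 + ‖D.e‖ := by positivity
  refine (mem_Alg).2 ⟨fun s => ?_, fun t => ?_, fun s t => ?_, fun s t => ?_⟩
  · exact Reg.lim D.e_ne (fun k => (hf' k).row s) (fun t m => hpt (s, t, m))
  · exact Reg.lim D.q_ne (fun k => (hf' k).col t) (fun s m => hpt (s, t, m))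
  · refine lim_aux (φ := fun a => a - D.e * a) hK (fun a b => ?_)
      (f := fun k m => f k (s, t, m)) (fun ε hε => ?_) (fun k => (hf' k).bl s t)
    · have h1 : (a - D.e * a) - (b - D.e * b) = (a - b) - D.e * (a - b) := by noncomm_ring
      rw [h1]
      refine (norm_sub_le _ _).trans ?_
      have := norm_mul_le D.e (a - b)
      nlinarith
    · obtain ⟨k, hk⟩ := hunif ε hε
      exact ⟨k, fun m => hk _⟩
  · refine lim_aux (φ := fun a => a - a * D.e) hK (fun a b => ?_)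
      (f := fun k m => f k (s, t, m)) (fun ε hε => ?_) (fun k => (hf' k).br s t)
    · have h1 : (a - a * D.e) - (b - b * D.e) = (a - b) - (a - b) * D.e := by noncomm_ring
      rw [h1]
      refine (norm_sub_le _ _).trans ?_
      have := norm_mul_le (a - b) D.e
      nlinarith
    · obtain ⟨k, hk⟩ := hunif ε hε
      exact ⟨k, fun m => hk _⟩

lemma norm_proj_le {p : M} (h1 : p * p = p) (h2 : star p = p) : ‖p‖ ≤ 1 := by
  have h := CStarRing.norm_star_mul_self (x := p)
  rw [h2, h1] at h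
  nlinarith [norm_nonneg p]

lemma norm_proj_eq {p : M} (h1 : p * p = p) (h2 : star p = p) (h3 : p ≠ 0) : ‖p‖ = 1 := by
  have h := CStarRing.norm_star_mul_self (x := p)
  rw [h2, h1] at h
  have h4 : ‖p‖ ≠ 0 := norm_ne_zero_iff.2 h3
  have h5 : ‖p‖ * (‖p‖ - 1) = 0 := by linarith
  rcases mul_eq_zero.1 h5 with h | h
  · exact absurd h h4
  · linarith

/-- A pointwise projection as an element of the big algebra. -/
def mkBig (E : S × T × ℕ → M) (h1 : ∀ x, E x * E x = E x) (h2 : ∀ x, star (E x) = E x) :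
    Big M S T :=
  ⟨E, memℓp_infty ⟨1, by
    rintro _ ⟨x, rfl⟩
    exact norm_proj_le (h1 x) (h2 x)⟩⟩

@[simp] lemma mkBig_apply (E : S × T × ℕ → M) (h1 : ∀ x, E x * E x = E x)
    (h2 : ∀ x, star (E x) = E x) (x : S × T × ℕ) : mkBig E h1 h2 x = E x := rfl

end Pool.Agent.Helper66.AI
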