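import Pool.Agent.Helper66.AI.Unit

set_option autoImplicit false
open Filter Topology
open scoped ENNReal

namespace Pool.Agent.Helper66.AI

variable {M : Type} [CStarAlgebra M] {S T : Type}

/-- The algebra has an approximate identity made of projections. -/
lemma exists_approx (D : Data M) (FS : Filter S) (FT : Filter T) :
    ∃ e : Finset (Alg D FS FT : NonUnitalStarSubalgebra ℂ (Big M S T)) × ℕ →
        (Alg D FS FT : NonUnitalStarSubalgebra ℂ (Big M S T)),
      (∀ i, IsIdempotentElem (e i) ∧ IsSelfAdjoint (e i)) ∧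
        ∀ a : (Alg D FS FT : NonUnitalStarSubalgebra ℂ (Big M S T)),
          Tendsto (fun i => e i * a) atTop (𝓝 a) ∧ Tendsto (fun i => a * e i) atTop (𝓝 a) := by
  classical
  have hpos : ∀ n : ℕ, (0 : ℝ) < 1 / ((n : ℝ) + 1) := fun n => Nat.one_div_pos_of_nat
  choose e he1 he2 using
    fun (p : Finset (Alg D FS FT : NonUnitalStarSubalgebra ℂ (Big M S T)) × ℕ) =>
      exists_unit D FS FT p.1 (hpos p.2)
  refine ⟨e, he1, fun a => ⟨?_, ?_⟩⟩
  · rw [Metric.tendsto_atTop]
    intro ε hε
    obtain ⟨n, hn⟩ := exists_nat_one_div_lt hε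
    refine ⟨({a}, n), fun p hp => ?_⟩
    rw [dist_eq_norm]
    have h1 : a ∈ p.1 := hp.1 (Finset.mem_singleton_self a)
    have h2 := (he2 p a h1).1
    have h3 : 1 / ((p.2 : ℝ) + 1) ≤ 1 / ((n : ℝ) + 1) :=
      Nat.one_div_le_one_div hp.2
    exact lt_of_le_of_lt (h2.trans h3) hn
  · rw [Metric.tendsto_atTop]
    intro ε hε
    obtain ⟨n, hn⟩ := exists_nat_one_div_lt hε
    refine ⟨({a}, n), fun p hp => ?_⟩
    rw [dist_eq_norm]
    have h1 : a ∈ p.1 := hp.1 (Finset.mem_singleton_self a)
    have h2 := (he2 p a h1).2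
    have h3 : 1 / ((p.2 : ℝ) + 1) ≤ 1 / ((n : ℝ) + 1) :=
      Nat.one_div_le_one_div hp.2
    exact lt_of_le_of_lt (h2.trans h3) hn

lemma Reg.eq_one {I : Type} {F : Filter I} [NeBot F] {u : ℕ → M} {f : I → ℕ → M}
    (hu : ∀ m, u m * u m = u m) (hs : ∀ m, star (u m) = u m) (hu0 : u 0 ≠ 0)
    (hf : Reg F u f) (hidem : ∀ i m, f i m * f i m = f i m)
    (hnear : ∀ i m, ‖f i m * u m - u m‖ < 1) : ∀ᶠ i in F, ∀ m, f i m = u m := by
  obtain ⟨c, hc⟩ := hf
  obtain ⟨i0, hi0⟩ := hc.exists
  have h1 : (c * c) • u 0 = c • u 0 := by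
    have := hidem i0 0
    rwa [hi0, smul_mul_smul_comm, hu] at this
  have h2 : (c * c - c) • u 0 = 0 := by rw [sub_smul, h1, sub_self]
  have h3 : c * c - c = 0 := (smul_eq_zero.1 h2).resolve_right hu0
  have h4 : c * (c - 1) = 0 := by rw [mul_sub, mul_one, h3]
  rcases mul_eq_zero.1 h4 with h | h
  · exfalso
    have := hnear i0 0
    rw [hi0, h, zero_smul, zero_mul, zero_sub, norm_neg, norm_proj_eq (hu 0) (hs 0) hu0] at this
    exact lt_irrefl _ this
  · have hc1 : c = 1 := by linear_combination h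
    filter_upwards [hc] with i hi m
    rw [hi, hc1, one_smul]

/-- The element that is `e` on one row. -/
noncomputable def Pfun (D : Data M) (s : S) (x : S × T × ℕ) : M :=
  open Classical in if x.1 = s then D.e else 0

/-- The element that is `q` on one column. -/
noncomputable def Qfun (D : Data M) (t : T) (x : S × T × ℕ) : M :=
  open Classical in if x.2.1 = t then D.q x.2.2 else 0

lemma Pfun_mem (D : Data M) {FS : Filter S} {FT : Filter T} (hS : ∀ s, ∀ᶠ s' in FS, s' ≠ s)
    (s : S) : Mem D FS FT (Pfun D s : S × T × ℕ → M) where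
  row s' := by
    classical
    refine ⟨if s' = s then 1 else 0, Eventually.of_forall fun t m => ?_⟩
    unfold Pfun
    split_ifs <;> simp_all
  col t := by
    classical
    refine ⟨0, ?_⟩
    filter_upwards [hS s] with s' hs' m
    unfold Pfun
    rw [if_neg hs', zero_smul]
  bl s' t := by
    by_cases h : s' = s
    · refine tendsto_const_nhds.congr fun m => ?_
      unfold Pfun
      simp [h, D.ee]
    · refine tendsto_const_nhds.congr fun m => ?_
      unfold Pfun
      simp [h]
  br s' t := by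
    by_cases h : s' = s
    · refine tendsto_const_nhds.congr fun m => ?_
      unfold Pfun
      simp [h, D.ee]
    · refine tendsto_const_nhds.congr fun m => ?_
      unfold Pfun
      simp [h]

lemma Qfun_mem (D : Data M) {FS : Filter S} {FT : Filter T} (hT : ∀ t, ∀ᶠ t' in FT, t' ≠ t)
    (t : T) : Mem D FS FT (Qfun D t : S × T × ℕ → M) where
  row s := by
    classical
    refine ⟨0, ?_⟩
    filter_upwards [hT t] with t' ht' m
    unfold Qfun
    rw [if_neg ht', zero_smul]
  col t' := by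
    classical
    refine ⟨if t' = t then 1 else 0, Eventually.of_forall fun s m => ?_⟩
    unfold Qfun
    split_ifs <;> simp_all
  bl s t' := by
    by_cases h : t' = t
    · have := D.lim.sub (D.lim.const_mul D.e)
      rw [D.ee, sub_self] at this
      refine this.congr fun m => ?_
      unfold Qfun
      simp [h]
    · refine tendsto_const_nhds.congr fun m => ?_
      unfold Qfun
      simp [h]
  br s t' := by
    by_cases h : t' = t
    · have := D.lim.sub (D.lim.mul_const D.e)
      rw [D.ee, sub_self] at this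
      refine this.congr fun m => ?_
      unfold Qfun
      simp [h]
    · refine tendsto_const_nhds.congr fun m => ?_
      unfold Qfun
      simp [h]

lemma Pfun_idem (D : Data M) (s : S) (x : S × T × ℕ) :
    Pfun D s x * Pfun D s x = Pfun D s x := by
  unfold Pfun
  split_ifs <;> simp [D.ee]

lemma Pfun_star (D : Data M) (s : S) (x : S × T × ℕ) : star (Pfun D s x) = Pfun D s x := by
  unfold Pfun
  split_ifs <;> simp [D.se]

lemma Qfun_idem (D : Data M) (t : T) (x : S × T × ℕ) :
    Qfun D t x * Qfun D t x = Qfun D t x := by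
  unfold Qfun
  split_ifs <;> simp [D.qq]

lemma Qfun_star (D : Data M) (t : T) (x : S × T × ℕ) : star (Qfun D t x) = Qfun D t x := by
  unfold Qfun
  split_ifs <;> simp [D.sq]

/-- The algebra has no increasing approximate identity made of projections. -/
lemma no_inc (D : Data M) (FS : Filter S) (FT : Filter T) [NeBot FS] [NeBot FT]
    (hS : ∀ s, ∀ᶠ s' in FS, s' ≠ s) (hT : ∀ t, ∀ᶠ t' in FT, t' ≠ t)
    (hST : ∀ P : S → T → Prop, (∀ s, ∀ᶠ t in FT, P s t) → ∃ t, ∀ s, P s t)
    {Λ : Type} [Preorder Λ] [IsDirected Λ (· ≤ ·)] [Nonempty Λ]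
    (e : Λ → (Alg D FS FT : NonUnitalStarSubalgebra ℂ (Big M S T)))
    (hproj : ∀ i, IsIdempotentElem (e i) ∧ IsSelfAdjoint (e i))
    (hinc : ∀ i j, i ≤ j → e i * e j = e i)
    (hlim : ∀ a : (Alg D FS FT : NonUnitalStarSubalgebra ℂ (Big M S T)),
      Tendsto (fun i => e i * a) atTop (𝓝 a)) : False := by
  classical
  have hpt : ∀ i x, (e i : Big M S T) x * (e i : Big M S T) x = (e i : Big M S T) x := by
    intro i x
    have h1 : e i * e i = e i := (hproj i).1
    have h2 := congrArg (fun y : (Alg D FS FT : NonUnitalStarSubalgebra ℂ (Big M S T)) =>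
      (y : Big M S T) x) h1
    exact h2
  have hnear : ∀ a : (Alg D FS FT : NonUnitalStarSubalgebra ℂ (Big M S T)), ∃ i,
      ∀ x, ‖(e i : Big M S T) x * (a : Big M S T) x - (a : Big M S T) x‖ < 1 := by
    intro a
    have h1 := (hlim a).eventually (Metric.ball_mem_nhds a one_pos)
    obtain ⟨i, hi⟩ := h1.exists
    refine ⟨i, fun x => ?_⟩
    rw [dist_eq_norm] at hi
    exact lt_of_le_of_lt
      (lp.norm_apply_le_norm ENNReal.top_ne_zero ((e i * a - a :
        (Alg D FS FT : NonUnitalStarSubalgebra ℂ (Big M S T))) : Big M S T) x) hi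
  have hrow : ∀ s, ∃ i, ∀ᶠ t in FT, ∀ m, (e i : Big M S T) (s, t, m) = D.e := by
    intro s
    obtain ⟨i, hi⟩ := hnear ⟨mkBig (Pfun D s) (Pfun_idem D s) (Pfun_star D s), Pfun_mem D hS s⟩
    refine ⟨i, Reg.eq_one (fun _ => D.ee) (fun _ => D.se) D.e_ne
      ((mem_Alg.1 (e i).2).row s) (fun t m => hpt i _) (fun t m => ?_)⟩
    have h1 := hi (s, t, m)
    have h2 : (Pfun D s (s, t, m) : M) = D.e := by
      unfold Pfun
      simp
    simpa only [mkBig_apply, h2] using h1
  have hcol : ∀ t, ∃ i, ∀ᶠ s in FS, ∀ m, (e i : Big M S T) (s, t, m) = D.q m := by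
    intro t
    obtain ⟨i, hi⟩ := hnear ⟨mkBig (Qfun D t) (Qfun_idem D t) (Qfun_star D t), Qfun_mem D hT t⟩
    refine ⟨i, Reg.eq_one D.qq D.sq D.q_ne
      ((mem_Alg.1 (e i).2).col t) (fun s m => hpt i _) (fun s m => ?_)⟩
    have h1 := hi (s, t, m)
    have h2 : (Qfun D t (s, t, m) : M) = D.q m := by
      unfold Qfun
      simp
    simpa only [mkBig_apply, h2] using h1
  choose i hi using hrow
  obtain ⟨t, ht⟩ := hST (fun s t => ∀ m, (e (i s) : Big M S T) (s, t, m) = D.e) hi
  obtain ⟨j, hj⟩ := hcol t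
  obtain ⟨s, hs⟩ := hj.exists
  obtain ⟨k, hk1, hk2⟩ := exists_ge_ge (i s) j
  have h1 : ∀ m, (e k : Big M S T) (s, t, m) = 1 := by
    intro m
    refine D.one m _ ?_ ?_
    · have h2 := congrArg (fun y : (Alg D FS FT : NonUnitalStarSubalgebra ℂ (Big M S T)) =>
        (y : Big M S T) (s, t, m)) (hinc _ _ hk1)
      have h3 : (e (i s) : Big M S T) (s, t, m) * (e k : Big M S T) (s, t, m) =
        (e (i s) : Big M S T) (s, t, m) := h2
      rwa [ht s m] at h3
    · have h2 := congrArg (fun y : (Alg D FS FT : NonUnitalStarSubalgebra ℂ (Big M S T)) =>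
        (y : Big M S T) (s, t, m)) (hinc _ _ hk2)
      have h3 : (e j : Big M S T) (s, t, m) * (e k : Big M S T) (s, t, m) =
        (e j : Big M S T) (s, t, m) := h2
      rwa [hs m] at h3
  have h2 := (mem_Alg.1 (e k).2).bl s t
  simp only [h1, mul_one] at h2
  have h3 := tendsto_nhds_unique h2 tendsto_const_nhds
  exact D.ne1 (sub_eq_zero.1 h3.symm).symm

end Pool.Agent.Helper66.AI
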