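import Pool.Agent.Helper66.AI.Mat

set_option autoImplicit false
open Filter Topology
open scoped ENNReal Cardinal Matrix.Norms.L2Operator

namespace Pool.Agent.Helper66.AI

/-- Complements of countable sets of real numbers. -/
noncomputable abbrev FS : Filter ℝ := Filter.cocountable

/-- Complements of countable sets of sets of real numbers. -/
noncomputable abbrev FT : Filter (Set ℝ) := Filter.cocountable

lemma real_lt : #ℝ < #(Set ℝ) := by
  rw [Cardinal.mk_set]
  exact Cardinal.cantor _

instance : CountableInterFilter FS :=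
  CardinalInterFilter.toCountableInterFilter _ (Cardinal.aleph0_lt_aleph_one)

instance : CountableInterFilter FT :=
  CardinalInterFilter.toCountableInterFilter _ (Cardinal.aleph0_lt_aleph_one)

lemma exists_row (P : ℝ → Set ℝ → Prop) (h : ∀ s, ∀ᶠ t in FT, P s t) : ∃ t, ∀ s, P s t := by
  by_contra hcon
  push Not at hcon
  have hcount : ∀ s, {t | ¬ P s t}.Countable := fun s => by
    have := Filter.mem_cocountable.1 (h s)
    exact this
  have hcover : (⋃ s : ℝ, {t : Set ℝ | ¬ P s t}) = Set.univ := by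
    ext t
    simp only [Set.mem_iUnion, Set.mem_ofPred_eq, Set.mem_univ, iff_true]
    exact hcon t
  have h1 : #(Set ℝ) ≤ #ℝ * ℵ₀ := by
    rw [← Cardinal.mk_univ, ← hcover]
    refine (Cardinal.mk_iUnion_le_sum_mk).trans ?_
    refine (Cardinal.sum_le_sum _ (fun _ => ℵ₀) fun s => (hcount s).le_aleph0).trans ?_
    rw [Cardinal.sum_const']
  have h2 : #ℝ * ℵ₀ = #ℝ := by
    rw [Cardinal.mk_real, Cardinal.continuum_mul_aleph0]
  rw [h2] at h1
  exact absurd h1 (not_le.2 real_lt)

instance : NeBot FS := by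
  rw [neBot_iff]
  intro h
  have h1 : (∅ : Set ℝ) ∈ FS := by rw [h]; trivial
  rw [Filter.mem_cocountable, Set.compl_empty] at h1
  exact Cardinal.not_countable_real h1

instance : NeBot FT := by
  rw [neBot_iff]
  intro h
  obtain ⟨t, ht⟩ := exists_row (fun _ _ => False) (fun s => by
    rw [h]
    exact Filter.eventually_bot)
  exact ht 0

/-- The C*-algebra of the counterexample. -/
noncomputable abbrev CE : Type := (Alg dat FS FT : NonUnitalStarSubalgebra ℂ (Big M2 ℝ (Set ℝ)))

noncomputable instance instCE : NonUnitalCStarAlgebra CE :=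
  NonUnitalStarSubalgebra.nonUnitalCStarAlgebra _ (h_closed := isClosed_Alg dat FS FT)

theorem ce_approx :
    ∃ (Λ : Type) (_ : Preorder Λ) (_ : IsDirected Λ (· ≤ ·)) (_ : Nonempty Λ) (e : Λ → CE),
      (∀ i, IsIdempotentElem (e i) ∧ IsSelfAdjoint (e i)) ∧
      ∀ a : CE, Tendsto (fun i => e i * a) atTop (𝓝 a) ∧
        Tendsto (fun i => a * e i) atTop (𝓝 a) := by
  classical
  obtain ⟨e, he1, he2⟩ := exists_approx dat FS FT
  exact ⟨Finset CE × ℕ, inferInstance, inferInstance, inferInstance, e, he1, he2⟩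

theorem ce_no_inc :
    ¬ ∃ (Λ : Type) (_ : Preorder Λ) (_ : IsDirected Λ (· ≤ ·)) (_ : Nonempty Λ) (e : Λ → CE),
      (∀ i, IsIdempotentElem (e i) ∧ IsSelfAdjoint (e i)) ∧
      (∀ i j, i ≤ j → e i * e j = e i) ∧
      ∀ a : CE, Tendsto (fun i => e i * a) atTop (𝓝 a) ∧
        Tendsto (fun i => a * e i) atTop (𝓝 a) := by
  rintro ⟨L, hL1, hL2, hL3, f, hf1, hf2, hf3⟩
  exact no_inc dat FS FT
    (fun s => Filter.eventually_cocardinal_ne s) (fun t => Filter.eventually_cocardinal_ne t)
    exists_row f hf1 hf2 (fun a => (hf3 a).1)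

end Pool.Agent.Helper66.AI
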