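import Pool.Agent.Helper66.AI.Inc

set_option autoImplicit false
open Filter Topology
open scoped ENNReal Matrix.Norms.L2Operator

namespace Pool.Agent.Helper66.AI

/-- Two by two complex matrices. -/
abbrev M2 : Type := Matrix (Fin 2) (Fin 2) ℂ

/-- The numbers `1 / (m + 1)`. -/
noncomputable def xx (m : ℕ) : ℂ := 1 / ((m : ℂ) + 1)

/-- The normalising constants. -/
noncomputable def cc (m : ℕ) : ℂ := 1 / (1 + xx m ^ 2)

/-- The projection on the first coordinate. -/
noncomputable def e0 : M2 := !![1, 0; 0, 0]

/-- The projections on the lines spanned by `(1, xx m)`. -/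
noncomputable def q0 (m : ℕ) : M2 := !![cc m, cc m * xx m; cc m * xx m, cc m * xx m ^ 2]

lemma xx_ne (m : ℕ) : xx m ≠ 0 := by
  unfold xx
  have : ((m : ℂ) + 1) ≠ 0 := Nat.cast_add_one_ne_zero m
  exact one_div_ne_zero this

lemma xx_real (m : ℕ) : xx m = (((1 : ℝ) / ((m : ℝ) + 1) : ℝ) : ℂ) := by
  unfold xx
  push_cast
  rfl

lemma den_ne (m : ℕ) : (1 + xx m ^ 2) ≠ 0 := by
  rw [xx_real]
  norm_cast
  positivity

lemma cc_mul (m : ℕ) : cc m * (1 + xx m ^ 2) = 1 := by
  unfold cc
  field_simp [den_ne m]

lemma cc_ne (m : ℕ) : cc m ≠ 0 := by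
  unfold cc
  exact one_div_ne_zero (den_ne m)

lemma star_xx (m : ℕ) : (starRingEnd ℂ) (xx m) = xx m := by
  rw [xx_real]
  exact Complex.conj_ofReal _

lemma star_cc (m : ℕ) : (starRingEnd ℂ) (cc m) = cc m := by
  unfold cc
  rw [map_div₀, map_add, map_pow, star_xx, map_one]

lemma xx_lim : Tendsto xx atTop (𝓝 0) := by
  have h := tendsto_one_div_add_atTop_nhds_zero_nat (𝕜 := ℝ)
  have h2 := (Complex.continuous_ofReal.tendsto 0).comp h
  rw [Complex.ofReal_zero] at h2
  refine h2.congr fun m => ?_
  rw [xx_real]
  rfl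

lemma cc_lim : Tendsto cc atTop (𝓝 1) := by
  have h1 : Tendsto (fun m => 1 + xx m ^ 2) atTop (𝓝 1) := by
    have := (xx_lim.pow 2).const_add 1
    simpa using this
  have h2 := (tendsto_const_nhds (x := (1 : ℂ))).div h1 one_ne_zero
  rw [div_one] at h2
  exact h2

/-- The concrete data. -/
noncomputable def dat : Data M2 where
  e := e0
  q := q0
  ee := by
    unfold e0
    ext i j
    fin_cases i <;> fin_cases j <;> simp [Matrix.mul_apply, Fin.sum_univ_two]
  se := by
    unfold e0
    ext i j
    fin_cases i <;> fin_cases j <;> simp [Matrix.star_apply]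
  qq m := by
    have h := cc_mul m
    unfold q0
    ext i j
    fin_cases i <;> fin_cases j <;> simp [Matrix.mul_apply, Fin.sum_univ_two]
    · linear_combination cc m * h
    · linear_combination cc m * xx m * h
    · linear_combination cc m * xx m * h
    · linear_combination cc m * xx m ^ 2 * h
  sq m := by
    unfold q0
    ext i j
    fin_cases i <;> fin_cases j <;> simp [Matrix.star_apply, star_xx, star_cc]
  lim := by
    have hx := xx_lim
    have hc := cc_lim
    have h1 : Tendsto (fun m => cc m * xx m) atTop (𝓝 0) := by simpa using hc.mul hx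
    have h2 : Tendsto (fun m => cc m * xx m ^ 2) atTop (𝓝 0) := by
      simpa using hc.mul (hx.pow 2)
    refine tendsto_pi_nhds.2 fun i => tendsto_pi_nhds.2 fun j => ?_
    fin_cases i <;> fin_cases j <;> simp [q0, e0] <;> assumption
  ind a b h := by
    have h1 := congrFun (congrFun h 0) 0
    have h2 := congrFun (congrFun h 0) 1
    simp [e0, q0] at h1 h2
    have hb : b = 0 := by
      rcases h2 with h2 | h2
      · exact h2
      · exact absurd h2 (by simp [cc_ne, xx_ne])
    refine ⟨?_, hb⟩
    rw [h1, hb, zero_mul]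
  one m r h1 h2 := by
    have a1 := congrFun (congrFun h1 0) 0
    have a2 := congrFun (congrFun h1 0) 1
    have b1 := congrFun (congrFun h2 0) 0
    have b2 := congrFun (congrFun h2 0) 1
    simp [e0, q0, Matrix.mul_apply, Fin.sum_univ_two] at a1 a2 b1 b2
    have hc := cc_ne m
    have hx := xx_ne m
    ext i j
    fin_cases i <;> fin_cases j <;> simp
    · exact a1
    · exact a2
    · rw [a1] at b1
      have : cc m * xx m * r 1 0 = 0 := by linear_combination b1
      exact (mul_eq_zero.1 this).resolve_left (mul_ne_zero hc hx)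
    · rw [a2] at b2
      have : cc m * xx m * (r 1 1 - 1) = 0 := by linear_combination b2
      have := (mul_eq_zero.1 this).resolve_left (mul_ne_zero hc hx)
      linear_combination this
  ne1 h := by
    have h1 := congrFun (congrFun h 1) 1
    simp [e0] at h1

end Pool.Agent.Helper66.AI
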