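import Mathlib

set_option autoImplicit false
open Filter Topology
open scoped ENNReal

namespace Pool.Agent.Helper66.AI

variable {M : Type} [CStarAlgebra M]

/-- Eventually along `F` the block `f i` is a constant multiple of the profile `u`. -/
def Reg {I : Type} (F : Filter I) (u : ℕ → M) (f : I → ℕ → M) : Prop :=
  ∃ c : ℂ, ∀ᶠ i in F, ∀ m, f i m = c • u m

section reg

variable {I : Type} {F : Filter I} {u : ℕ → M} {f g : I → ℕ → M}

lemma Reg.zero : Reg F u (fun _ _ => 0) :=
  ⟨0, Eventually.of_forall fun i m => by simp⟩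

lemma Reg.add (hf : Reg F u f) (hg : Reg F u g) : Reg F u (fun i m => f i m + g i m) := by
  obtain ⟨c, hc⟩ := hf
  obtain ⟨d, hd⟩ := hg
  refine ⟨c + d, ?_⟩
  filter_upwards [hc, hd] with i h1 h2 m
  rw [h1, h2, add_smul]

lemma Reg.smul (hf : Reg F u f) (z : ℂ) : Reg F u (fun i m => z • f i m) := by
  obtain ⟨c, hc⟩ := hf
  refine ⟨z * c, ?_⟩
  filter_upwards [hc] with i h1 m
  rw [h1, mul_smul]

lemma Reg.mul (hu : ∀ m, u m * u m = u m) (hf : Reg F u f) (hg : Reg F u g) :
    Reg F u (fun i m => f i m * g i m) := by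
  obtain ⟨c, hc⟩ := hf
  obtain ⟨d, hd⟩ := hg
  refine ⟨c * d, ?_⟩
  filter_upwards [hc, hd] with i h1 h2 m
  rw [h1, h2, smul_mul_smul_comm, hu]

lemma Reg.star' (hu : ∀ m, star (u m) = u m) (hf : Reg F u f) :
    Reg F u (fun i m => star (f i m)) := by
  obtain ⟨c, hc⟩ := hf
  refine ⟨star c, ?_⟩
  filter_upwards [hc] with i h1 m
  rw [h1, star_smul, hu]

lemma exists_tendsto_smul {v w : M} (hv : v ≠ 0) {c : ℕ → ℂ}
    (h : Tendsto (fun k => c k • v) atTop (𝓝 w)) : ∃ d : ℂ, Tendsto c atTop (𝓝 d) := by
  have hclosed : IsClosed ((Submodule.span ℂ {v} : Submodule ℂ M) : Set M) :=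
    Submodule.closed_of_finiteDimensional _
  have hw : w ∈ (Submodule.span ℂ {v} : Submodule ℂ M) :=
    hclosed.mem_of_tendsto h (Eventually.of_forall fun k =>
      Submodule.smul_mem _ _ (Submodule.mem_span_singleton_self v))
  obtain ⟨d, rfl⟩ := Submodule.mem_span_singleton.1 hw
  refine ⟨d, ?_⟩
  rw [tendsto_iff_norm_sub_tendsto_zero] at h ⊢
  have h2 : ∀ k, ‖c k - d‖ = ‖c k • v - d • v‖ * ‖v‖⁻¹ := by
    intro k
    rw [← sub_smul, norm_smul]
    have : ‖v‖ ≠ 0 := norm_ne_zero_iff.2 hv
    field_simp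
  simp_rw [h2]
  have := h.mul_const (‖v‖⁻¹)
  simpa using this

lemma Reg.lim [CountableInterFilter F] [NeBot F] (h0 : u 0 ≠ 0) {f : ℕ → I → ℕ → M}
    {g : I → ℕ → M} (hf : ∀ k, Reg F u (f k))
    (hlim : ∀ i m, Tendsto (fun k => f k i m) atTop (𝓝 (g i m))) : Reg F u g := by
  choose c hc using hf
  have hall : ∀ᶠ i in F, ∀ k m, f k i m = c k • u m := eventually_countable_forall.2 hc
  obtain ⟨i0, hi0⟩ := hall.exists
  have h1 : Tendsto (fun k => c k • u 0) atTop (𝓝 (g i0 0)) := by
    have := hlim i0 0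
    simpa only [hi0] using this
  obtain ⟨d, hd⟩ := exists_tendsto_smul h0 h1
  refine ⟨d, ?_⟩
  filter_upwards [hall] with i hi m
  have h2 : Tendsto (fun k => c k • u m) atTop (𝓝 (g i m)) := by
    have := hlim i m
    simpa only [hi] using this
  exact tendsto_nhds_unique h2 (hd.smul_const (u m))

end reg

/-- The data: two projections close to each other. -/
structure Data (M : Type) [CStarAlgebra M] where
  e : M
  q : ℕ → M
  ee : e * e = e
  se : star e = e
  qq : ∀ m, q m * q m = q m
  sq : ∀ m, star (q m) = q m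
  lim : Tendsto q atTop (𝓝 e)
  ind : ∀ a b : ℂ, a • e = b • q 0 → a = 0 ∧ b = 0
  one : ∀ m r, e * r = e → q m * r = q m → r = 1
  ne1 : e ≠ 1

lemma Data.e_ne (D : Data M) : D.e ≠ 0 := by
  intro h
  have := (D.ind 1 0 (by rw [h]; simp)).1
  exact one_ne_zero this

lemma Data.q_ne (D : Data M) : D.q 0 ≠ 0 := by
  intro h
  have := (D.ind 0 1 (by rw [h]; simp)).2
  exact one_ne_zero this

section space

variable {S T : Type}

/-- The defining conditions of the algebra. -/
structure Mem (D : Data M) (FS : Filter S) (FT : Filter T) (a : S × T × ℕ → M) : Prop where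
  row : ∀ s, Reg FT (fun _ => D.e) (fun t m => a (s, t, m))
  col : ∀ t, Reg FS D.q (fun s m => a (s, t, m))
  bl : ∀ s t, Tendsto (fun m => a (s, t, m) - D.e * a (s, t, m)) atTop (𝓝 0)
  br : ∀ s t, Tendsto (fun m => a (s, t, m) - a (s, t, m) * D.e) atTop (𝓝 0)

variable {D : Data M} {FS : Filter S} {FT : Filter T} {a b : S × T × ℕ → M}

lemma Mem.zero : Mem D FS FT 0 where
  row s := Reg.zero
  col t := Reg.zero
  bl s t := by simp
  br s t := by simp

lemma Mem.add (ha : Mem D FS FT a) (hb : Mem D FS FT b) : Mem D FS FT (a + b) where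
  row s := (ha.row s).add (hb.row s)
  col t := (ha.col t).add (hb.col t)
  bl s t := by
    have := (ha.bl s t).add (hb.bl s t)
    simp only [add_zero] at this
    refine this.congr fun m => ?_
    simp only [Pi.add_apply]
    noncomm_ring
  br s t := by
    have := (ha.br s t).add (hb.br s t)
    simp only [add_zero] at this
    refine this.congr fun m => ?_
    simp only [Pi.add_apply]
    noncomm_ring

lemma Mem.smul (ha : Mem D FS FT a) (z : ℂ) : Mem D FS FT (z • a) where
  row s := (ha.row s).smul z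
  col t := (ha.col t).smul z
  bl s t := by
    have := (ha.bl s t).const_smul z
    simp only [smul_zero] at this
    refine this.congr fun m => ?_
    simp only [Pi.smul_apply, smul_sub, mul_smul_comm]
  br s t := by
    have := (ha.br s t).const_smul z
    simp only [smul_zero] at this
    refine this.congr fun m => ?_
    simp only [Pi.smul_apply, smul_sub, smul_mul_assoc]

lemma Mem.star (ha : Mem D FS FT a) : Mem D FS FT (star a) where
  row s := (ha.row s).star' (fun _ => D.se)
  col t := (ha.col t).star' D.sq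
  bl s t := by
    have := (ha.br s t).star
    simp only [star_zero] at this
    refine this.congr fun m => ?_
    simp only [Pi.star_apply, star_sub, star_mul, D.se]
  br s t := by
    have := (ha.bl s t).star
    simp only [star_zero] at this
    refine this.congr fun m => ?_
    simp only [Pi.star_apply, star_sub, star_mul, D.se]

lemma Mem.mul (ha : Mem D FS FT a) (hb : Mem D FS FT b) {Ca Cb : ℝ} (hCa : ∀ x, ‖a x‖ ≤ Ca)
    (hCb : ∀ x, ‖b x‖ ≤ Cb) : Mem D FS FT (a * b) where
  row s := (ha.row s).mul (fun _ => D.ee) (hb.row s)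
  col t := (ha.col t).mul D.qq (hb.col t)
  bl s t := by
    have h := (ha.bl s t).norm
    rw [norm_zero] at h
    have h2 := h.mul_const Cb
    rw [zero_mul] at h2
    refine squeeze_zero_norm (fun m => ?_) h2
    have : (a * b) (s, t, m) - D.e * (a * b) (s, t, m) =
        (a (s, t, m) - D.e * a (s, t, m)) * b (s, t, m) := by
      simp only [Pi.mul_apply]
      noncomm_ring
    rw [this]
    exact (norm_mul_le _ _).trans (mul_le_mul_of_nonneg_left (hCb _) (norm_nonneg _))
  br s t := by
    have h := (hb.br s t).norm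
    rw [norm_zero] at h
    have h2 := h.const_mul Ca
    rw [mul_zero] at h2
    refine squeeze_zero_norm (fun m => ?_) h2
    have : (a * b) (s, t, m) - (a * b) (s, t, m) * D.e =
        a (s, t, m) * (b (s, t, m) - b (s, t, m) * D.e) := by
      simp only [Pi.mul_apply]
      noncomm_ring
    rw [this]
    exact (norm_mul_le _ _).trans (mul_le_mul_of_nonneg_right (hCa _) (norm_nonneg _))

end space

end Pool.Agent.Helper66.AI
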