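import Pool.Agent.Helper66.AI.Alg

set_option autoImplicit false
open Filter Topology
open scoped ENNReal

namespace Pool.Agent.Helper66.AI

variable {M : Type} [CStarAlgebra M] {S T : Type}

section pointwise

open Classical in
/-- The projection adapted to a finite set of elements. -/
noncomputable def Efun (D : Data M) (Row Col : S → T → Prop) (bL : S → Prop) (bN : T → Prop)
    (N : S → T → ℕ) (x : S × T × ℕ) : M :=
  if Col x.1 x.2.1 then (if bN x.2.1 then D.q x.2.2 else 0)
  else if Row x.1 x.2.1 then (if bL x.1 then D.e else 0)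
  else if x.2.2 ≤ N x.1 x.2.1 then 1 else D.e

variable (D : Data M) {Row Col : S → T → Prop} {bL : S → Prop} {bN : T → Prop} {N : S → T → ℕ}

lemma Efun_idem (x : S × T × ℕ) :
    Efun D Row Col bL bN N x * Efun D Row Col bL bN N x = Efun D Row Col bL bN N x := by
  unfold Efun
  split_ifs <;> simp [D.ee, D.qq]

lemma Efun_star (x : S × T × ℕ) :
    star (Efun D Row Col bL bN N x) = Efun D Row Col bL bN N x := by
  unfold Efun
  split_ifs <;> simp [D.se, D.sq]

lemma Efun_col {s : S} {t : T} (h : Col s t) (m : ℕ) :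
    Efun D Row Col bL bN N (s, t, m) = (open Classical in if bN t then D.q m else 0) := by
  unfold Efun
  simp [h]

lemma Efun_row {s : S} {t : T} (h' : ¬ Col s t) (h : Row s t) (m : ℕ) :
    Efun D Row Col bL bN N (s, t, m) = (open Classical in if bL s then D.e else 0) := by
  unfold Efun
  simp [h, h']

lemma Efun_neither {s : S} {t : T} (h' : ¬ Col s t) (h : ¬ Row s t) (m : ℕ) :
    Efun D Row Col bL bN N (s, t, m) = if m ≤ N s t then 1 else D.e := by
  unfold Efun
  simp [h, h']

lemma Efun_lim (s : S) (t : T) : ∃ y : M, (y = D.e ∨ y = 0) ∧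
    Tendsto (fun m => Efun D Row Col bL bN N (s, t, m)) atTop (𝓝 y) := by
  by_cases hc : Col s t
  · by_cases hb : bN t
    · refine ⟨D.e, Or.inl rfl, D.lim.congr fun m => ?_⟩
      rw [Efun_col D hc, if_pos hb]
    · refine ⟨0, Or.inr rfl, tendsto_const_nhds.congr fun m => ?_⟩
      rw [Efun_col D hc, if_neg hb]
  · by_cases hr : Row s t
    · by_cases hb : bL s
      · refine ⟨D.e, Or.inl rfl, tendsto_const_nhds.congr fun m => ?_⟩
        rw [Efun_row D hc hr, if_pos hb]
      · refine ⟨0, Or.inr rfl, tendsto_const_nhds.congr fun m => ?_⟩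
        rw [Efun_row D hc hr, if_neg hb]
    · refine ⟨D.e, Or.inl rfl, ?_⟩
      refine (tendsto_const_nhds (x := D.e)).congr' ?_
      filter_upwards [eventually_gt_atTop (N s t)] with m hm
      rw [Efun_neither D hc hr, if_neg (not_le.2 hm)]

lemma Efun_mem {FS : Filter S} {FT : Filter T}
    (hrow : ∀ s, ∀ᶠ t in FT, Row s t) (hcol : ∀ t, ∀ᶠ s in FS, Col s t)
    (hboth : ∀ s t, Row s t → Col s t → ¬ bL s ∧ ¬ bN t) :
    Mem D FS FT (Efun D Row Col bL bN N) where
  row s := by
    classical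
    refine ⟨if bL s then 1 else 0, ?_⟩
    filter_upwards [hrow s] with t ht m
    by_cases hc : Col s t
    · obtain ⟨h1, h2⟩ := hboth s t ht hc
      rw [Efun_col D hc, if_neg h1, if_neg h2, zero_smul]
    · rw [Efun_row D hc ht]
      split_ifs <;> simp
  col t := by
    classical
    refine ⟨if bN t then 1 else 0, ?_⟩
    filter_upwards [hcol t] with s hs m
    rw [Efun_col D hs]
    split_ifs <;> simp
  bl s t := by
    obtain ⟨y, hy, hlim⟩ := Efun_lim D (Row := Row) (Col := Col) (bL := bL) (bN := bN) (N := N) s t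
    have := hlim.sub (hlim.const_mul D.e)
    have h0 : y - D.e * y = 0 := by
      rcases hy with rfl | rfl
      · rw [D.ee, sub_self]
      · simp
    rwa [h0] at this
  br s t := by
    obtain ⟨y, hy, hlim⟩ := Efun_lim D (Row := Row) (Col := Col) (bL := bL) (bN := bN) (N := N) s t
    have := hlim.sub (hlim.mul_const D.e)
    have h0 : y - y * D.e = 0 := by
      rcases hy with rfl | rfl
      · rw [D.ee, sub_self]
      · simp
    rwa [h0] at this

end pointwise

lemma exists_unit (D : Data M) (FS : Filter S) (FT : Filter T)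
    (F : Finset (Alg D FS FT : NonUnitalStarSubalgebra ℂ (Big M S T))) {ε : ℝ} (hε : 0 < ε) :
    ∃ E : (Alg D FS FT : NonUnitalStarSubalgebra ℂ (Big M S T)),
      (IsIdempotentElem E ∧ IsSelfAdjoint E) ∧
      ∀ a ∈ F, ‖E * a - a‖ ≤ ε ∧ ‖a * E - a‖ ≤ ε := by
  classical
  choose lam hlam using fun (a : (Alg D FS FT : NonUnitalStarSubalgebra ℂ (Big M S T))) =>
    (mem_Alg.1 a.2).row
  choose nu hnu using fun (a : (Alg D FS FT : NonUnitalStarSubalgebra ℂ (Big M S T))) =>
    (mem_Alg.1 a.2).col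
  set Row : S → T → Prop := fun s t => ∀ a ∈ F, ∀ m, (a : Big M S T) (s, t, m) = lam a s • D.e
    with hRow
  set Col : S → T → Prop := fun s t => ∀ a ∈ F, ∀ m, (a : Big M S T) (s, t, m) = nu a t • D.q m
    with hCol
  set bL : S → Prop := fun s => ∃ a ∈ F, lam a s ≠ 0 with hbL
  set bN : T → Prop := fun t => ∃ a ∈ F, nu a t ≠ 0 with hbN
  have hNex : ∀ s t, ∃ N : ℕ, ∀ m, N < m → ∀ a ∈ F,
      ‖D.e * (a : Big M S T) (s, t, m) - (a : Big M S T) (s, t, m)‖ ≤ ε ∧
      ‖(a : Big M S T) (s, t, m) * D.e - (a : Big M S T) (s, t, m)‖ ≤ ε := by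
    intro s t
    have h1 : ∀ a ∈ F, ∀ᶠ m in atTop,
        ‖D.e * (a : Big M S T) (s, t, m) - (a : Big M S T) (s, t, m)‖ ≤ ε ∧
        ‖(a : Big M S T) (s, t, m) * D.e - (a : Big M S T) (s, t, m)‖ ≤ ε := by
      intro a _
      have h2 := ((mem_Alg.1 a.2).bl s t).norm
      have h3 := ((mem_Alg.1 a.2).br s t).norm
      rw [norm_zero] at h2 h3
      filter_upwards [h2.eventually_le_const hε, h3.eventually_le_const hε] with m h4 h5
      rw [norm_sub_rev] at h4 h5
      exact ⟨h4, h5⟩
    have h2 : ∀ᶠ m in atTop, ∀ a ∈ F,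
        ‖D.e * (a : Big M S T) (s, t, m) - (a : Big M S T) (s, t, m)‖ ≤ ε ∧
        ‖(a : Big M S T) (s, t, m) * D.e - (a : Big M S T) (s, t, m)‖ ≤ ε :=
      (Finset.eventually_all F).2 h1
    obtain ⟨N, hN⟩ := eventually_atTop.1 h2
    exact ⟨N, fun m hm => hN m hm.le⟩
  choose N hN using hNex
  have hrow : ∀ s, ∀ᶠ t in FT, Row s t := fun s =>
    (Finset.eventually_all F).2 fun a _ => hlam a s
  have hcol : ∀ t, ∀ᶠ s in FS, Col s t := fun t =>
    (Finset.eventually_all F).2 fun a _ => hnu a t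
  have hboth : ∀ s t, Row s t → Col s t → ¬ bL s ∧ ¬ bN t := by
    intro s t hr hc
    have h1 : ∀ a ∈ F, lam a s = 0 ∧ nu a t = 0 := fun a ha =>
      D.ind _ _ ((hr a ha 0).symm.trans (hc a ha 0))
    refine ⟨?_, ?_⟩
    · rintro ⟨a, ha, h2⟩
      exact h2 (h1 a ha).1
    · rintro ⟨a, ha, h2⟩
      exact h2 (h1 a ha).2
  have hmem : Mem D FS FT (Efun D Row Col bL bN N) := Efun_mem D hrow hcol hboth
  set E₀ : Big M S T := mkBig (Efun D Row Col bL bN N) (Efun_idem D) (Efun_star D) with hE₀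
  have hkey : ∀ a ∈ F, ∀ x : S × T × ℕ,
      ‖E₀ x * (a : Big M S T) x - (a : Big M S T) x‖ ≤ ε ∧
      ‖(a : Big M S T) x * E₀ x - (a : Big M S T) x‖ ≤ ε := by
    rintro a ha ⟨s, t, m⟩
    rw [hE₀, mkBig_apply]
    by_cases hc : Col s t
    · rw [Efun_col D hc, hc a ha m]
      by_cases hb : bN t
      · rw [if_pos hb, mul_smul_comm, smul_mul_assoc, D.qq, sub_self, norm_zero]
        exact ⟨hε.le, hε.le⟩
      · have h0 : nu a t = 0 := by
          by_contra h
          exact hb ⟨a, ha, h⟩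
        rw [h0]
        simp [hε.le]
    · by_cases hr : Row s t
      · rw [Efun_row D hc hr, hr a ha m]
        by_cases hb : bL s
        · rw [if_pos hb, mul_smul_comm, smul_mul_assoc, D.ee, sub_self, norm_zero]
          exact ⟨hε.le, hε.le⟩
        · have h0 : lam a s = 0 := by
            by_contra h
            exact hb ⟨a, ha, h⟩
          rw [h0]
          simp [hε.le]
      · rw [Efun_neither D hc hr]
        by_cases hm : m ≤ N s t
        · rw [if_pos hm, one_mul, mul_one, sub_self, norm_zero]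
          exact ⟨hε.le, hε.le⟩
        · rw [if_neg hm]
          exact hN s t m (not_le.1 hm) a ha
  refine ⟨⟨E₀, hmem⟩, ⟨?_, ?_⟩, fun a ha => ⟨?_, ?_⟩⟩
  · apply Subtype.ext
    apply lp.ext
    funext x
    exact Efun_idem D x
  · apply Subtype.ext
    apply lp.ext
    funext x
    exact Efun_star D x
  · exact lp.norm_le_of_forall_le hε.le fun x => (hkey a ha x).1
  · exact lp.norm_le_of_forall_le hε.le fun x => (hkey a ha x).2

end Pool.Agent.Helper66.AI
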